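import Pool.Agent.H32.N6W.Targets

/-!
# Packaging at the real places
-/

set_option autoImplicit false

open Polynomial NumberField IsDedekindDomain Matrix Pool.Agent.H32.QC Pool.Agent.H34.N6
open Pool.Agent.H13.DEV Pool.Agent.H34.N6V Pool.Agent.H63.WT Pool.Agent.H32.N6W

namespace Pool.Agent.H35.N6W

theorem coprime_lin {F : Type} [Field F] {P : F[X]} {t : F} (h : eval t P ≠ 0) :
    IsCoprime (X - C t) P := by
  rw [(Polynomial.irreducible_X_sub_C t).coprime_iff_not_dvd]
  intro h1
  exact h (Polynomial.dvd_iff_isRoot.1 h1)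

theorem aeval_ne {k L : Type} [Field k] [Field L] [Algebra k L] {P Q G : k[X]} {e : L}
    (hg : Gen Q e) (hd : Q ∣ P) (hc : IsCoprime G P) : aeval e G ≠ 0 := by
  intro h
  have h1 : IsCoprime G Q := hc.of_isCoprime_of_dvd_right hd
  obtain ⟨a, b, hab⟩ := h1
  have h2 : aeval e Q = 0 := by
    rw [← hg.mp]
    exact minpoly.aeval k e
  have h3 := congrArg (aeval e) hab
  rw [map_add, map_mul, map_mul, h, h2, mul_zero, mul_zero, add_zero, map_one] at h3
  exact zero_ne_one h3

theorem th_prod {k L : Type} [Field k] [NumberField k] [Field L] [NumberField L] [Algebra k L]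
    (hTHM : T_THM) (D : k[X]) (e : L) (v : Pl k) (hD : aeval e D ≠ 0) (h1 : th D e v 1 = 1)
    {ι : Type} (s : Finset ι) (A : ι → k[X]) (hA : ∀ i ∈ s, aeval e (A i) ≠ 0) :
    th D e v (∏ i ∈ s, A i) = ∏ i ∈ s, th D e v (A i) := by
  classical
  induction s using Finset.induction_on with
  | empty => rw [Finset.prod_empty, Finset.prod_empty, h1]
  | insert i s hi ih =>
    rw [Finset.prod_insert hi, Finset.prod_insert hi,
      (hTHM k L D e v hD).1 _ _ (hA i (Finset.mem_insert_self i s)),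
      ih (fun j hj => hA j (Finset.mem_insert_of_mem hj))]
    rw [map_prod]
    exact Finset.prod_ne_zero_iff.2 (fun j hj => hA j (Finset.mem_insert_of_mem hj))

theorem th_one {k L : Type} [Field k] [NumberField k] [Field L] [NumberField L] [Algebra k L]
    (hTHM : T_THM) (D : k[X]) (e : L) (v : Pl k) (hD : aeval e D ≠ 0) : th D e v 1 = 1 := by
  have h1 : aeval e (1 : k[X]) ≠ 0 := by
    rw [map_one]
    exact one_ne_zero
  have h2 := (hTHM k L D e v hD).1 1 1 h1 h1
  rw [mul_one] at h2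
  rcases (hTHM k L D e v hD).2 1 h1 with h3 | h3
  · exact h3
  · rw [h3] at h2
    norm_num at h2

theorem th_pow {k L : Type} [Field k] [NumberField k] [Field L] [NumberField L] [Algebra k L]
    (hTHM : T_THM) (D : k[X]) (e : L) (v : Pl k) (hD : aeval e D ≠ 0) (G : k[X])
    (hG : aeval e G ≠ 0) (m : ℕ) : th D e v (G ^ m) = th D e v G ^ m := by
  induction m with
  | zero => rw [pow_zero, pow_zero, th_one hTHM D e v hD]
  | succ m ih =>
    rw [pow_succ, pow_succ, (hTHM k L D e v hD).1 _ _ _ hG, ih]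
    rw [map_pow]
    exact pow_ne_zero _ hG

theorem pf_PCR (hNER : T_NER) (hADR : T_ADR) (hTHM : T_THM) : T_PCR := by
  intro k ι _ _ _ L _ _ _ P D Pj e v x hP h7 hsep hPD hPj hx
  obtain ⟨n, c, η, hn, hη, hc, hTI, hxj⟩ := hx
  refine ⟨n, hn, ?_⟩
  intro m hm
  set Q : k[X] := ∏ i, (X - C (c i)) with hQ
  have hQm : Q.Monic := monic_prod_of_monic _ _ (fun i _ => monic_X_sub_C _)
  have hQd : Q.natDegree = n := by
    rw [hQ, natDegree_prod_of_monic _ _ (fun i _ => monic_X_sub_C _)]
    simp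
  have hQc : IsCoprime Q P := IsCoprime.prod_left (fun i _ => coprime_lin (hc i))
  have hmap : (Q ^ m).map v = ∏ s : Fin n × Fin m, (X - C (v (c s.1))) := by
    rw [Fintype.prod_prod_type, Polynomial.map_pow, hQ, Polynomial.map_prod,
      ← Finset.prod_pow]
    apply Finset.prod_congr rfl
    intro i _
    simp
  obtain ⟨ε, hε, hnear⟩ := hNER (Fin n × Fin m) (fun s => v (c s.1)) η hη
  refine ⟨Q ^ m, ε, hε, hQm.pow m, ?_, hQc.pow_left, ?_, ?_⟩
  · rw [hQm.natDegree_pow, hQd, mul_comm]
  · intro G' hG' hd hcl K _ _ _ w hw θ _ hθ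
    rcases w with w | ψ
    · simp [bel] at hw
    · have hψ : ψ.comp (algebraMap k K) = v := by
        simpa [bel] using hw
      have h1 : eval (ψ θ) (G'.map v) = 0 := by
        rw [eval_map, ← hψ, ← hom_eval₂]
        have h2 : eval₂ (algebraMap k K) θ G' = 0 := hθ
        rw [h2, map_zero]
      obtain ⟨s, hs⟩ := hnear (G'.map v) (hG'.map v)
        (by
          rw [natDegree_map, hd]
          simp)
        (by
          intro i
          have h2 := hcl i
          rw [← hmap, ← Polynomial.map_sub, coeff_map]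
          exact h2) (ψ θ) h1
      change TI (ft (P.map (ψ.comp (algebraMap k K))) (D.map (ψ.comp (algebraMap k K))) (ψ θ)) 3
      rw [hψ]
      exact hTI s.1 _ hs
  · intro j
    obtain ⟨hPm, hgen, hdvd⟩ := hPj j
    have hD : aeval (e j) D ≠ 0 := aeval_ne hgen hdvd hPD.symm
    have hQe : aeval (e j) Q ≠ 0 := aeval_ne hgen hdvd hQc
    have h1 := th_one hTHM D (e j) (Sum.inr v) hD
    rw [th_pow hTHM D (e j) (Sum.inr v) hD Q hQe m]
    have h2 : th D (e j) (Sum.inr v) Q ^ m = th D (e j) (Sum.inr v) Q := by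
      rcases (hTHM k (L j) D (e j) (Sum.inr v) hD).2 Q hQe with h3 | h3
      · rw [h3, one_pow]
      · rw [h3, hm.neg_one_pow]
    rw [h2, hQ, th_prod hTHM D (e j) (Sum.inr v) hD h1 Finset.univ _
      (fun i _ => aeval_ne hgen hdvd (coprime_lin (hc i))), hxj j]
    apply Finset.prod_congr rfl
    intro i _
    exact hADR k (L j) (Pj j) D (e j) v (X - C (c i)) hPm hgen

end Pool.Agent.H35.N6W
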